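import Mathlib

/-!
# MP_388f8c_an, Q1: a closed cone with `(∗)` and without bounded base

Let `Z` be the space of finitely supported sequences with the norm of `ℓ²` and let `w ∈ ℓ²` be the
sequence `w n = 2 ^ (-n)`, which is not in `Z` but in its closure. In `X = ℝ × ℝ × Z` the cone
`C = {(s, t, z) : ‖z - t w‖ ≤ s}` is closed, and it is pointed since `w ∉ Z`. On `C` the norm is
bounded by a multiple of `max |s| |t|`, which gives `(∗)`. There is no bounded base, because for
`z ∈ Z` close to `w` and `δ = ‖z - w‖` the elements `(δ, 1, z)` and `(δ, -1, -z)` of `C` have norm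
at least `1`, and their sum is small.
-/

set_option autoImplicit false

namespace Pool.Agent.Results.MP_388f8c_an.WeakSeparation

/-- `C` is a cone: a nonempty set which is closed under addition and under multiplication by
nonnegative numbers, with `C ∩ (-C) = {0}`. -/
structure IsCone {X : Type} [NormedAddCommGroup X] [NormedSpace ℝ X] (C : Set X) : Prop where
  nonempty : C.Nonempty
  add_mem : ∀ x ∈ C, ∀ y ∈ C, x + y ∈ C
  smul_mem : ∀ x ∈ C, ∀ r : ℝ, 0 ≤ r → r • x ∈ C
  pointed : ∀ x ∈ C, -x ∈ C → x = 0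

/-- `B` is a base of `C`: a nonempty convex subset of `C` with `0 ∉ closure B` such that every
nonzero element of `C` is `r • b` for exactly one pair `(r, b)` with `r > 0`, `b ∈ B`. -/
structure IsBase {X : Type} [NormedAddCommGroup X] [NormedSpace ℝ X] (C B : Set X) : Prop where
  nonempty : B.Nonempty
  convex : Convex ℝ B
  subset : B ⊆ C
  zero_notMem : (0 : X) ∉ closure B
  existsUnique : ∀ c ∈ C, c ≠ 0 → ∃! p : ℝ × X, 0 < p.1 ∧ p.2 ∈ B ∧ c = p.1 • p.2

/-- Condition `(∗)`: for every `ε ∈ (0, 1)`, the point `0` is not in the closure of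
`C \ ε B_X` for the weak topology. -/
def Star {X : Type} [NormedAddCommGroup X] [NormedSpace ℝ X] (C : Set X) : Prop :=
  ∀ ε : ℝ, 0 < ε → ε < 1 →
    (0 : WeakSpace ℝ X) ∉ closure (toWeakSpace ℝ X '' (C \ Metric.closedBall 0 ε))

section

variable {W : Type} [NormedAddCommGroup W] [NormedSpace ℝ W] (Z : Submodule ℝ W) (w : W)

/-- The cone. -/
def cone : Set (ℝ × ℝ × Z) := {p | ‖(p.2.2 : W) - p.2.1 • w‖ ≤ p.1}

lemma isClosed_cone : IsClosed (cone Z w) := by
  unfold cone
  exact isClosed_le (by fun_prop) (by fun_prop)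

lemma isCone_cone (hw : w ∉ Z) : IsCone (cone Z w) where
  nonempty := ⟨0, by simp [cone]⟩
  add_mem := by
    rintro ⟨s, t, z⟩ hx ⟨s', t', z'⟩ hy
    change ‖(z : W) - t • w‖ ≤ s at hx
    change ‖(z' : W) - t' • w‖ ≤ s' at hy
    change ‖((z + z' : Z) : W) - (t + t') • w‖ ≤ s + s'
    have h : ((z + z' : Z) : W) - (t + t') • w = ((z : W) - t • w) + ((z' : W) - t' • w) := by
      rw [Submodule.coe_add, add_smul]; abel
    rw [h]
    exact (norm_add_le _ _).trans (add_le_add hx hy)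
  smul_mem := by
    rintro ⟨s, t, z⟩ hx r hr
    change ‖(z : W) - t • w‖ ≤ s at hx
    change ‖((r • z : Z) : W) - (r * t) • w‖ ≤ r * s
    have h : ((r • z : Z) : W) - (r * t) • w = r • ((z : W) - t • w) := by
      rw [Submodule.coe_smul, smul_sub, smul_smul]
    rw [h, norm_smul, Real.norm_of_nonneg hr]
    exact mul_le_mul_of_nonneg_left hx hr
  pointed := by
    rintro ⟨s, t, z⟩ hx hy
    change ‖(z : W) - t • w‖ ≤ s at hx
    change ‖((-z : Z) : W) - (-t) • w‖ ≤ -s at hy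
    have hs1 : 0 ≤ s := (norm_nonneg _).trans hx
    have hs2 : 0 ≤ -s := (norm_nonneg _).trans hy
    have hs : s = 0 := by linarith
    subst hs
    have h0 : (z : W) = t • w := sub_eq_zero.1 (norm_le_zero_iff.1 hx)
    have ht : t = 0 := by
      by_contra ht
      apply hw
      have : w = t⁻¹ • (z : W) := by rw [h0, smul_smul, inv_mul_cancel₀ ht, one_smul]
      rw [this]
      exact Z.smul_mem _ z.2
    subst ht
    rw [zero_smul] at h0
    have hz : z = 0 := Subtype.ext h0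
    rw [hz]
    rfl

lemma star_cone : Star (cone Z w) := by
  intro ε hε _ hmem
  set η : ℝ := ε / (1 + ‖w‖) with hη
  have hw : 0 < 1 + ‖w‖ := by positivity
  have hη0 : 0 < η := div_pos hε hw
  let f : StrongDual ℝ (ℝ × ℝ × Z) := ContinuousLinearMap.fst ℝ ℝ (ℝ × Z)
  let g : StrongDual ℝ (ℝ × ℝ × Z) :=
    (ContinuousLinearMap.fst ℝ ℝ Z).comp (ContinuousLinearMap.snd ℝ ℝ (ℝ × Z))
  have hf : Continuous fun x : WeakSpace ℝ (ℝ × ℝ × Z) => f x :=
    WeakBilin.eval_continuous (topDualPairing ℝ (ℝ × ℝ × Z)).flip f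
  have hg : Continuous fun x : WeakSpace ℝ (ℝ × ℝ × Z) => g x :=
    WeakBilin.eval_continuous (topDualPairing ℝ (ℝ × ℝ × Z)).flip g
  have hU : IsOpen {x : WeakSpace ℝ (ℝ × ℝ × Z) | |f x| < η ∧ |g x| < η} :=
    (isOpen_lt hf.abs continuous_const).inter (isOpen_lt hg.abs continuous_const)
  have h0U : (0 : WeakSpace ℝ (ℝ × ℝ × Z)) ∈
      {x : WeakSpace ℝ (ℝ × ℝ × Z) | |f x| < η ∧ |g x| < η} := by
    have h1 : f (0 : ℝ × ℝ × Z) = 0 := map_zero f
    have h2 : g (0 : ℝ × ℝ × Z) = 0 := map_zero g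
    refine ⟨?_, ?_⟩
    · change |f (0 : ℝ × ℝ × Z)| < η
      rw [h1, abs_zero]; exact hη0
    · change |g (0 : ℝ × ℝ × Z)| < η
      rw [h2, abs_zero]; exact hη0
  obtain ⟨y, hyU, c, ⟨hcC, hcε⟩, rfl⟩ := mem_closure_iff.1 hmem _ hU h0U
  obtain ⟨s, t, z⟩ := c
  change ‖(z : W) - t • w‖ ≤ s at hcC
  obtain ⟨h1, h2⟩ := hyU
  change |s| < η at h1
  change |t| < η at h2
  apply hcε
  rw [mem_closedBall_zero_iff, Prod.norm_def, Prod.norm_def]
  have hηε : η * (1 + ‖w‖) = ε := div_mul_cancel₀ _ hw.ne'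
  have hwn := norm_nonneg w
  have hz : ‖z‖ ≤ s + |t| * ‖w‖ := by
    have h3 : (z : W) = ((z : W) - t • w) + t • w := by abel
    calc ‖z‖ = ‖(z : W)‖ := rfl
      _ = ‖((z : W) - t • w) + t • w‖ := by rw [← h3]
      _ ≤ ‖(z : W) - t • w‖ + ‖t • w‖ := norm_add_le _ _
      _ ≤ s + |t| * ‖w‖ := by rw [norm_smul, Real.norm_eq_abs]; exact add_le_add hcC le_rfl
  have hs : s ≤ |s| := le_abs_self s
  refine max_le ?_ (max_le ?_ ?_)
  · change |s| ≤ ε
    nlinarith
  · change |t| ≤ ε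
    nlinarith
  · change ‖z‖ ≤ ε
    nlinarith

lemma no_bounded_base (hw : w ∈ closure (Z : Set W)) :
    ¬ ∃ B : Set (ℝ × ℝ × Z), IsBase (cone Z w) B ∧ Bornology.IsBounded B := by
  rintro ⟨B, hB, hbdd⟩
  obtain ⟨M, hM0, hM⟩ := hbdd.exists_pos_norm_le
  obtain ⟨m, hm0, hm⟩ : ∃ m : ℝ, 0 < m ∧ ∀ b ∈ B, m ≤ ‖b‖ := by
    have h := hB.zero_notMem
    rw [Metric.mem_closure_iff] at h
    push Not at h
    obtain ⟨m, hm0, hm⟩ := h
    exact ⟨m, hm0, fun b hb => by have := hm b hb; rwa [dist_zero_left] at this⟩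
  set δ : ℝ := m / (4 * M) with hδ
  have hδ0 : 0 < δ := by positivity
  obtain ⟨z, hzZ, hz⟩ := Metric.mem_closure_iff.1 hw δ hδ0
  rw [dist_eq_norm] at hz
  set c : ℝ × ℝ × Z := (δ, 1, ⟨z, hzZ⟩) with hc
  set d : ℝ × ℝ × Z := (δ, -1, ⟨-z, Z.neg_mem hzZ⟩) with hd
  have hcC : c ∈ cone Z w := by
    change ‖z - (1 : ℝ) • w‖ ≤ δ
    rw [one_smul, norm_sub_rev]; exact hz.le
  have hdC : d ∈ cone Z w := by
    change ‖-z - (-1 : ℝ) • w‖ ≤ δ
    have : -z - (-1 : ℝ) • w = w - z := by rw [neg_smul, one_smul]; abel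
    rw [this]; exact hz.le
  have hc0 : c ≠ 0 := by
    intro h
    have := congrArg (fun p : ℝ × ℝ × Z => p.2.1) h
    simp [hc] at this
  have hd0 : d ≠ 0 := by
    intro h
    have := congrArg (fun p : ℝ × ℝ × Z => p.2.1) h
    simp [hd] at this
  obtain ⟨⟨a, b⟩, ⟨ha, hb, hcab⟩, -⟩ := hB.existsUnique c hcC hc0
  obtain ⟨⟨a', b'⟩, ⟨ha', hb', hdab⟩, -⟩ := hB.existsUnique d hdC hd0
  dsimp only at ha hb hcab ha' hb' hdab
  have hsum : c + d = (2 * δ, 0, 0) := by
    rw [hc, hd]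
    ext <;> simp
    ring
  have hnorm : ‖c + d‖ = 2 * δ := by
    rw [hsum, Prod.norm_def, Prod.norm_def]
    simp [abs_of_pos hδ0]
    linarith
  have haa : 0 < a + a' := by positivity
  have hconv : (a / (a + a')) • b + (a' / (a + a')) • b' ∈ B :=
    hB.convex hb hb' (by positivity) (by positivity) (by field_simp)
  have hcd : c + d = (a + a') • ((a / (a + a')) • b + (a' / (a + a')) • b') := by
    rw [smul_add, smul_smul, smul_smul, mul_div_cancel₀ _ haa.ne', mul_div_cancel₀ _ haa.ne',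
      ← hcab, ← hdab]
  have h1 : (a + a') * m ≤ 2 * δ := by
    rw [← hnorm, hcd, norm_smul, Real.norm_of_nonneg haa.le]
    exact mul_le_mul_of_nonneg_left (hm _ hconv) haa.le
  have h2 : 1 ≤ a * M := by
    have h3 : (1 : ℝ) ≤ ‖c‖ := by
      rw [hc, Prod.norm_def, Prod.norm_def]
      simp
    calc (1 : ℝ) ≤ ‖c‖ := h3
      _ = a * ‖b‖ := by rw [hcab, norm_smul, Real.norm_of_nonneg ha.le]
      _ ≤ a * M := mul_le_mul_of_nonneg_left (hM b hb) ha.le
  have h4 : 2 * δ * M = m / 2 := by rw [hδ]; field_simp; ring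
  have h5 : m ≤ a * M * m := by nlinarith
  have h6 : a * m ≤ 2 * δ := by nlinarith
  have h7 : a * m * M ≤ 2 * δ * M := mul_le_mul_of_nonneg_right h6 hM0.le
  nlinarith

end

/-- The Hilbert space `ℓ²`. -/
abbrev W : Type := lp (fun _ : ℕ => ℝ) 2

/-- The finitely supported sequences. -/
def Z : Submodule ℝ W where
  carrier := {f | {i | f i ≠ 0}.Finite}
  zero_mem' := by simp
  add_mem' := by
    intro f g hf hg
    refine (hf.union hg).subset fun i hi => ?_
    by_contra h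
    simp only [Set.mem_union, Set.mem_ofPred_eq, not_or, not_not] at h
    apply hi
    simp [h.1, h.2]
  smul_mem' := by
    intro r f hf
    refine hf.subset fun i hi => ?_
    intro h
    apply hi
    simp [h]

lemma memℓp_w : Memℓp (fun n : ℕ => (1 / 2 : ℝ) ^ n) 2 := by
  rw [memℓp_gen_iff (by norm_num)]
  have h : Summable fun n : ℕ => (1 / 4 : ℝ) ^ n := summable_geometric_of_lt_one (by norm_num)
    (by norm_num)
  refine h.congr fun n => ?_
  have h1 : (2 : ENNReal).toReal = (2 : ℕ) := by norm_num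
  rw [Real.norm_of_nonneg (by positivity), h1, Real.rpow_natCast, ← pow_mul, mul_comm, pow_mul]
  norm_num

/-- The sequence `2 ^ (-n)`. -/
noncomputable def w : W := ⟨fun n => (1 / 2 : ℝ) ^ n, memℓp_w⟩

lemma w_notMem : w ∉ Z := by
  intro h
  have h1 : {i : ℕ | w i ≠ 0} = Set.univ := by
    ext i
    simp only [Set.mem_ofPred_eq, Set.mem_univ, iff_true]
    change (1 / 2 : ℝ) ^ i ≠ 0
    positivity
  have h2 : {i : ℕ | w i ≠ 0}.Finite := h
  rw [h1] at h2
  exact Set.infinite_univ h2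

lemma w_mem_closure : w ∈ closure (Z : Set W) := by
  have h := lp.hasSum_single (by norm_num : (2 : ENNReal) ≠ ⊤) w
  refine mem_closure_of_tendsto h (Filter.Eventually.of_forall fun s => ?_)
  refine Z.sum_mem fun i _ => ?_
  refine (Set.finite_singleton i).subset fun j hj => ?_
  by_contra hij
  apply hj
  exact lp.single_apply_ne 2 i _ (fun h => hij h)

/-- There are a normed space `X` and a closed cone `C` in `X` which satisfies `(∗)` but has no
bounded base. -/
theorem result : ∃ (X : Type) (_ : NormedAddCommGroup X) (_ : NormedSpace ℝ X) (C : Set X),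
    IsCone C ∧ IsClosed C ∧ Star C ∧ ¬ ∃ B : Set X, IsBase C B ∧ Bornology.IsBounded B :=
  ⟨ℝ × ℝ × Z, inferInstance, inferInstance, cone Z w, isCone_cone Z w w_notMem,
    isClosed_cone Z w, star_cone Z w, no_bounded_base Z w w_mem_closure⟩

end Pool.Agent.Results.MP_388f8c_an.WeakSeparation
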